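import Pool.Agent.Q223.BKC.BND1

/-!
# Job BND of project BKC, part 2: the bound
-/

set_option autoImplicit false
set_option linter.unusedVariables false
set_option linter.unusedSectionVars false

namespace Pool.Agent.Q223.BKC

open NumberField IsDedekindDomain Pool.Agent.Q274.BKC
open scoped Classical Pointwise

section coord
variable {K : Type} [Field K] [NumberField K] {q : ℕ} {s : K}

theorem not_rat (hq : 0 < q) (hs : s ^ 2 = -(q : K)) (a : ℚ) : s ≠ (a : K) := by
  rintro rfl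
  have h1 : ((a ^ 2 : ℚ) : K) = ((-(q : ℚ) : ℚ) : K) := by push_cast; exact hs
  have h2 : a ^ 2 = -(q : ℚ) := by exact_mod_cast h1
  have h3 : (0 : ℚ) < q := by exact_mod_cast hq
  nlinarith [sq_nonneg a]

theorem coord_zero (hq : 0 < q) (hs : s ^ 2 = -(q : K)) {a b : ℚ}
    (h : (a : K) + b * s = 0) : a = 0 ∧ b = 0 := by
  by_cases hb : b = 0
  · rw [hb] at h
    simp only [Rat.cast_zero, zero_mul, add_zero] at h
    exact ⟨by exact_mod_cast h, hb⟩
  · exfalso
    have hb' : (b : K) ≠ 0 := by exact_mod_cast hb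
    apply not_rat hq hs (-a / b)
    push_cast
    field_simp
    linear_combination h

theorem coord_unique (hq : 0 < q) (hs : s ^ 2 = -(q : K)) {a b a' b' : ℚ}
    (h : (a : K) + b * s = a' + b' * s) : a = a' ∧ b = b' := by
  have := coord_zero hq hs (a := a - a') (b := b - b') (by push_cast; linear_combination h)
  exact ⟨by linarith [this.1], by linarith [this.2]⟩

theorem coord_exists (hq : 0 < q) (hs : s ^ 2 = -(q : K)) (hK : Module.finrank ℚ K = 2) (x : K) :
    ∃ a b : ℚ, x = a + b * s := by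
  have hlin : LinearIndependent ℚ ![(1 : K), s] := by
    rw [LinearIndependent.pair_iff]
    intro a b h
    refine coord_zero hq hs ?_
    rw [Algebra.smul_def, Algebra.smul_def, mul_one] at h
    exact h
  have hspan := hlin.span_eq_top_of_card_eq_finrank (by rw [Fintype.card_fin, hK])
  have hx : x ∈ Submodule.span ℚ (Set.range ![(1 : K), s]) := by rw [hspan]; trivial
  rw [Matrix.range_cons, Matrix.range_cons, Matrix.range_empty, Set.union_empty,
    Set.singleton_union, Submodule.mem_span_pair] at hx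
  obtain ⟨a, b, h⟩ := hx
  refine ⟨a, b, ?_⟩
  rw [← h, Algebra.smul_def, Algebra.smul_def, mul_one]
  rfl

/-- `x` has norm `n` -/
def Nm (q : ℕ) (s x : K) (n : ℚ) : Prop := ∃ a b : ℚ, x = a + b * s ∧ n = a ^ 2 + q * b ^ 2

theorem Nm.mul (hs : s ^ 2 = -(q : K)) {x y : K} {n m : ℚ} (hx : Nm q s x n) (hy : Nm q s y m) :
    Nm q s (x * y) (n * m) := by
  obtain ⟨a, b, rfl, rfl⟩ := hx
  obtain ⟨c, d, rfl, rfl⟩ := hy
  refine ⟨a * c - q * b * d, a * d + b * c, ?_, ?_⟩
  · push_cast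
    linear_combination (b : K) * d * hs
  · ring

theorem Nm.unique (hq : 0 < q) (hs : s ^ 2 = -(q : K)) {x : K} {n m : ℚ} (hx : Nm q s x n)
    (hy : Nm q s x m) : n = m := by
  obtain ⟨a, b, h1, rfl⟩ := hx
  obtain ⟨c, d, h2, rfl⟩ := hy
  obtain ⟨rfl, rfl⟩ := coord_unique hq hs (h1.symm.trans h2)
  rfl

theorem Nm.pos (hq : 0 < q) {x : K} (hx : x ≠ 0) {n : ℚ} (h : Nm q s x n) : 0 < n := by
  obtain ⟨a, b, rfl, rfl⟩ := h
  have hq' : (0 : ℚ) < q := by exact_mod_cast hq
  by_contra hcon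
  push Not at hcon
  have h1 := sq_nonneg a
  have h2 := mul_nonneg hq'.le (sq_nonneg b)
  have ha : a ^ 2 = 0 := by linarith
  have hb : (q : ℚ) * b ^ 2 = 0 := by linarith
  have ha' : a = 0 := pow_eq_zero_iff two_ne_zero |>.1 ha
  have hb' : b = 0 := by
    rcases mul_eq_zero.1 hb with h | h
    · exact absurd h hq'.ne'
    · exact pow_eq_zero_iff two_ne_zero |>.1 h
  apply hx
  rw [ha', hb']
  simp

theorem Nm.exists (hq : 0 < q) (hs : s ^ 2 = -(q : K)) (hK : Module.finrank ℚ K = 2) (x : K) :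
    ∃ n, Nm q s x n := by
  obtain ⟨a, b, h⟩ := coord_exists hq hs hK x
  exact ⟨_, a, b, h, rfl⟩

/-- a multiple by a square with nonzero coordinates -/
theorem exists_coords (hq : 1 < q) (hs : s ^ 2 = -(q : K)) (hK : Module.finrank ℚ K = 2) {x : K}
    (hx : x ≠ 0) : ∃ (c : K) (A B : ℚ), c ≠ 0 ∧ A ≠ 0 ∧ B ≠ 0 ∧ x * c ^ 2 = A + B * s := by
  have hq0 : 0 < q := by omega
  obtain ⟨a, b, h⟩ := coord_exists hq0 hs hK x
  by_cases ha : a = 0
  · have hb : b ≠ 0 := by
      rintro rfl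
      apply hx
      rw [h, ha]
      simp
    refine ⟨1 + s, -2 * b * q, b * (1 - q), ?_, ?_, ?_, ?_⟩
    · intro h1
      exact not_rat hq0 hs (-1) (by push_cast; linear_combination h1)
    · have : (q : ℚ) ≠ 0 := by exact_mod_cast hq0.ne'
      exact mul_ne_zero (mul_ne_zero (by norm_num) hb) this
    · refine mul_ne_zero hb ?_
      have : (1 : ℚ) < q := by exact_mod_cast hq
      linarith
    · rw [h, ha]
      push_cast
      linear_combination (b : K) * (2 + s) * hs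
  · by_cases hb : b = 0
    · refine ⟨1 + s, a * (1 - q), 2 * a, ?_, ?_, ?_, ?_⟩
      · intro h1
        exact not_rat hq0 hs (-1) (by push_cast; linear_combination h1)
      · refine mul_ne_zero ha ?_
        have : (1 : ℚ) < q := by exact_mod_cast hq
        linarith
      · exact mul_ne_zero two_ne_zero ha
      · rw [h, hb]
        push_cast
        linear_combination (a : K) * hs
    · exact ⟨1, a, b, one_ne_zero, ha, hb, by rw [h]; ring⟩

end coord

section good
variable {K : Type} [Field K] [NumberField K] {q D : ℕ} {s : K}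

/-- the Selmer condition with the trivial condition at `q` -/
structure Good (q D : ℕ) (s x : K) : Prop where
  sx : SX q D s x
  atq : ∀ Q : Ideal (OB K), Q.IsMaximal → (q : OB K) ∈ Q → Fx x (Dec Q)

theorem Good.mul {x y : K} (hD : (D : K) * s ≠ 0) (hx : Good q D s x) (hy : Good q D s y) :
    Good q D s (x * y) :=
  ⟨SX_mul hD hx.sx hy.sx, fun Q h1 h2 => Fx_mul (hx.atq Q h1 h2) (hy.atq Q h1 h2)⟩

theorem Good.mul_sq {x c : K} (hD : (D : K) * s ≠ 0) (hx : Good q D s x) (hc : c ≠ 0) :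
    Good q D s (x * c ^ 2) :=
  ⟨SX_mul hD hx.sx (SX_sq hc), fun Q h1 h2 => Fx_mul_sq (hx.atq Q h1 h2)⟩

/-- one of `x`, `x D s` is good -/
theorem good_of_SX (hq : q.Prime) (hs : s ^ 2 = -(q : K)) (hK : Module.finrank ℚ K = 2)
    (hD : (D : K) * s ≠ 0) {x : K} (hx : SX q D s x) :
    ∃ e : ℕ, e ≤ 1 ∧ Good q D s ((D * s) ^ e * x) := by
  by_cases hex : ∃ Q : Ideal (OB K), Q.IsMaximal ∧ (q : OB K) ∈ Q
  · obtain ⟨Q, hQ, hqQ⟩ := hex
    rcases hx.loc q Q hq (dvd_mul_right _ _) hQ hqQ with h | h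
    · refine ⟨0, by norm_num, ?_⟩
      rw [pow_zero, one_mul]
      exact ⟨hx, fun Q' h1 h2 => Fx_all hq hs hK hQ h1 hqQ h2 h⟩
    · refine ⟨1, le_rfl, ?_⟩
      rw [pow_one, mul_comm]
      exact ⟨SX_mul hD hx (SX_Ds hs hD), fun Q' h1 h2 => Fx_all hq hs hK hQ h1 hqQ h2 h⟩
  · refine ⟨0, by norm_num, ?_⟩
    rw [pow_zero, one_mul]
    exact ⟨hx, fun Q' h1 h2 => absurd ⟨Q', h1, h2⟩ hex⟩

end good

section lin
variable {q D : ℕ}

/-- the sets with vanishing rows -/
noncomputable def GG (q D : ℕ) : Finset (Finset ℕ) :=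
  (SP q D).powerset.filter fun G => ∀ i ∈ SP q D, row q D G i = 0

theorem mem_GG {G : Finset ℕ} : G ∈ GG q D ↔ G ⊆ SP q D ∧ ∀ i ∈ SP q D, row q D G i = 0 := by
  unfold GG
  rw [Finset.mem_filter, Finset.mem_powerset]

/-- the indicator -/
noncomputable def ind (q D : ℕ) (G : Finset ℕ) : SP q D → ZMod 2 := fun i =>
  if (i : ℕ) ∈ G then 1 else 0

theorem R_ind {G : Finset ℕ} (hG : G ⊆ SP q D) (i : SP q D) :
    (R q D).mulVec (ind q D G) i = row q D G i := by
  have h1 : (R q D).mulVec (ind q D G) i =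
      ∑ j : SP q D, (if (j : ℕ) ∈ G then
        (if (i : ℕ) = j then ∑ r ∈ D.primeFactors.erase i, nr i r + n4 q i else nr i j) else 0) := by
    unfold Matrix.mulVec dotProduct
    refine Finset.sum_congr rfl fun j _ => ?_
    have hR : R q D i j = if i = j then ∑ r ∈ D.primeFactors.erase i, nr i r + n4 q i
      else nr i j := rfl
    change R q D i j * (if (j : ℕ) ∈ G then 1 else 0) = _
    rw [hR]
    by_cases hj : (j : ℕ) ∈ G
    · rw [if_pos hj, if_pos hj, mul_one]
      by_cases hij : i = j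
      · rw [if_pos hij, if_pos (congrArg Subtype.val hij)]
      · rw [if_neg hij, if_neg (fun h => hij (Subtype.ext h))]
    · rw [if_neg hj, if_neg hj, mul_zero]
  have h2 : ∑ j : SP q D, (if (j : ℕ) ∈ G then
        (if (i : ℕ) = j then ∑ r ∈ D.primeFactors.erase i, nr i r + n4 q i else nr i j) else 0) =
      ∑ j ∈ SP q D, (if j ∈ G then
        (if (i : ℕ) = j then ∑ r ∈ D.primeFactors.erase i, nr i r + n4 q i else nr i j) else 0) :=
    Finset.sum_coe_sort (SP q D) (fun j => if j ∈ G then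
        (if (i : ℕ) = j then ∑ r ∈ D.primeFactors.erase i, nr i r + n4 q i else nr i j) else 0)
  rw [h1, h2, ← Finset.sum_filter]
  have h3 : (SP q D).filter (fun j => j ∈ G) = G := by
    ext j
    rw [Finset.mem_filter]
    exact ⟨fun h => h.2, fun h => ⟨hG h, h⟩⟩
  rw [h3]
  unfold row
  by_cases hi : (i : ℕ) ∈ G
  · rw [if_pos hi, ← Finset.sum_erase_add _ _ hi, if_pos rfl]
    congr 1
    refine Finset.sum_congr rfl fun j hj => ?_
    rw [if_neg (Finset.ne_of_mem_erase hj).symm]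
  · rw [if_neg hi, add_zero, Finset.erase_eq_of_notMem hi]
    refine Finset.sum_congr rfl fun j hj => ?_
    rw [if_neg]
    rintro rfl
    exact hi hj

theorem card_GG : (GG q D).card ≤ 2 ^ corank q D := by
  let f : GG q D → LinearMap.ker (Matrix.mulVecLin (R q D)) := fun G => ⟨ind q D G.1, by
    rw [LinearMap.mem_ker, Matrix.mulVecLin_apply]
    funext i
    have h := mem_GG.1 G.2
    rw [R_ind h.1, h.2 i i.2]
    rfl⟩
  have hf : Function.Injective f := by
    intro G G' h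
    have h1 : ind q D G.1 = ind q D G'.1 := congrArg Subtype.val h
    apply Subtype.ext
    have hG := (mem_GG.1 G.2).1
    have hG' := (mem_GG.1 G'.2).1
    ext j
    constructor
    · intro hj
      have h2 := congrFun h1 ⟨j, hG hj⟩
      unfold ind at h2
      rw [if_pos hj] at h2
      by_contra hcon
      rw [if_neg hcon] at h2
      exact one_ne_zero h2
    · intro hj
      have h2 := congrFun h1 ⟨j, hG' hj⟩
      unfold ind at h2
      rw [if_pos hj] at h2
      by_contra hcon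
      rw [if_neg hcon] at h2
      exact zero_ne_one h2
  have h1 := Nat.card_le_card_of_injective f hf
  rw [Nat.card_eq_fintype_card, Fintype.card_coe] at h1
  have h2 := Module.natCard_eq_pow_finrank (K := ZMod 2)
    (V := LinearMap.ker (Matrix.mulVecLin (R q D)))
  rw [h2, Nat.card_zmod] at h1
  exact h1

end lin

/-- a finite type which maps injectively to pairs of elements of `GG` -/
theorem card_bound {q D r : ℕ} (f : Finset (Fin r) → Finset ℕ × Finset ℕ)
    (hf : Function.Injective f) (h1 : ∀ T, (f T).1 ∈ GG q D) (h2 : ∀ T, (f T).2 ∈ GG q D) :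
    r ≤ 2 * corank q D := by
  have h3 : (Finset.univ : Finset (Finset (Fin r))).card ≤ (GG q D ×ˢ GG q D).card := by
    refine Finset.card_le_card_of_injOn f (fun T _ => ?_) (fun a _ b _ h => hf h)
    rw [Finset.mem_coe, Finset.mem_product]
    exact ⟨h1 T, h2 T⟩
  rw [Finset.card_product, Finset.card_univ, Fintype.card_finset, Fintype.card_fin] at h3
  have h4 : 2 ^ r ≤ 2 ^ (2 * corank q D) := by
    calc 2 ^ r ≤ (GG q D).card * (GG q D).card := h3
      _ ≤ 2 ^ corank q D * 2 ^ corank q D := Nat.mul_le_mul card_GG card_GG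
      _ = 2 ^ (2 * corank q D) := by rw [two_mul, pow_add]
  exact (Nat.pow_le_pow_iff_right (by norm_num)).1 h4

theorem t_BND : Pool.Agent.Q274.BKC.S_BND := by
  intro hEMB hLOCX hNRM hE1 hE2 hB0 hA2 hPF hH1 hH2 hH3 K _ _ q D s r x hq hq8 hCl hs hK hx hT
  have hq1 : 1 < q := hq.one_lt
  have hq0 : 0 < q := hq.pos
  have hs0 : s ≠ 0 := by
    have := not_rat hq0 hs 0
    simpa using this
  have hD0 : (D : K) ≠ 0 := by exact_mod_cast hCl.sqf.ne_zero
  have hDs : (D : K) * s ≠ 0 := mul_ne_zero hD0 hs0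
  -- local data for good elements
  have hloc : ∀ X : K, Good q D s X → ∃ (c : K) (A B : ℚ), c ≠ 0 ∧ X * c ^ 2 = A + B * s ∧
      Loc q D A B := by
    intro X hX
    obtain ⟨c, A, B, hc, hA, hB, h⟩ := exists_coords hq1 hs hK hX.sx.ne
    have hg : Good q D s (A + B * s) := by
      rw [← h]; exact Good.mul_sq hDs hX hc
    exact ⟨c, A, B, hc, h, hLOCX hEMB K q D s A B hq hq8 hCl hs hK hA hB hg.sx hg.atq⟩
  -- step one
  have hM1 : ∀ X : K, Good q D s X → ∃ G ∈ GG q D, ∃ ρ : ℚ, ρ ≠ 0 ∧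
      Nm q s X (((∏ p ∈ G, p : ℕ) : ℚ) * ρ ^ 2) := by
    intro X hX
    obtain ⟨c, A, B, hc, h, hL⟩ := hloc X hX
    obtain ⟨b, G, t, hb, hG, ht, hn⟩ := hNRM q D A B hq hq8 hCl hL
    have h1 := hE1 q D A B b G t hq hq8 hCl hL hG ht hn
    have h2 := hE2 hPF hH1 hH2 hH3 q D A B b G t hq hq8 hCl hL hG ht hn
    have h3 := hB0 q D b G hq hq8 hCl hG h1 h2
    have hb0 : b = 0 := by
      interval_cases b
      · rfl
      · exact absurd h3 (by decide)
    subst hb0
    refine ⟨G, mem_GG.2 ⟨hG, fun i hi => ?_⟩, ?_⟩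
    · have := h1 i hi
      rw [Nat.cast_zero, zero_mul, add_zero] at this
      exact this
    · rw [pow_zero, one_mul] at hn
      obtain ⟨m, hm⟩ := Nm.exists hq0 hs hK X
      obtain ⟨n, hn'⟩ := Nm.exists hq0 hs hK c
      have hn0 := Nm.pos hq0 hc hn'
      have e1 : Nm q s (X * c ^ 2) (m * (n * n)) := by
        rw [sq]; exact Nm.mul hs hm (Nm.mul hs hn' hn')
      have e2 : Nm q s (X * c ^ 2) (((∏ p ∈ G, p : ℕ) : ℚ) * t ^ 2) := ⟨A, B, h, hn.symm⟩
      have e3 := Nm.unique hq0 hs e1 e2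
      refine ⟨t / n, div_ne_zero ht hn0.ne', ?_⟩
      have e4 : ((∏ p ∈ G, p : ℕ) : ℚ) * (t / n) ^ 2 = m := by
        have := hn0.ne'
        field_simp
        linear_combination -e3
      rw [e4]
      exact hm
  -- step two
  have hM2 : ∀ X : K, Good q D s X → (∃ ρ : ℚ, Nm q s X (ρ ^ 2)) → ∃ F ∈ GG q D,
      IsSquare (X * ((∏ p ∈ F, p : ℕ) : K)) := by
    rintro X hX ⟨ρ, hρ⟩
    obtain ⟨c, A, B, hc, h, hL⟩ := hloc X hX
    obtain ⟨n, hn'⟩ := Nm.exists hq0 hs hK c
    have e1 : Nm q s (X * c ^ 2) (ρ ^ 2 * (n * n)) := by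
      rw [sq c]; exact Nm.mul hs hρ (Nm.mul hs hn' hn')
    have e2 : Nm q s (X * c ^ 2) (A ^ 2 + q * B ^ 2) := ⟨A, B, h, rfl⟩
    have e3 := Nm.unique hq0 hs e2 e1
    obtain ⟨F, hF, hrow, hsq⟩ := hA2 K q D s A B (ρ * n) hq hq8 hCl hs hL (by rw [e3]; ring)
    refine ⟨F, mem_GG.2 ⟨hF, hrow⟩, ?_⟩
    rw [← h] at hsq
    obtain ⟨z, hz⟩ := hsq
    refine ⟨z / c, ?_⟩
    have e4 : z / c * (z / c) = z * z / c ^ 2 := by field_simp
    rw [e4, ← hz]
    field_simp
  -- the classes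
  have hSX : ∀ T : Finset (Fin r), SX q D s (∏ i ∈ T, x i) := fun T => SX_prod hDs hx T
  choose e he hgood using fun T => good_of_SX hq hs hK hDs (hSX T)
  choose G hG ρ hρ hNm using fun T => hM1 _ (hgood T)
  let rep : Finset ℕ → Finset (Fin r) := fun g => if h : ∃ T, G T = g then h.choose else ∅
  have hrep : ∀ T, G (rep (G T)) = G T := by
    intro T
    have h : ∃ T', G T' = G T := ⟨T, rfl⟩
    have h1 : rep (G T) = h.choose := dif_pos h
    rw [h1]
    exact h.choose_spec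
  have hprod : ∀ T, Good q D s (((D * s) ^ e T * ∏ i ∈ T, x i) *
      ((D * s) ^ e (rep (G T)) * ∏ i ∈ rep (G T), x i)) := fun T =>
    Good.mul hDs (hgood T) (hgood (rep (G T)))
  have hprodN : ∀ T, ∃ ρ' : ℚ, Nm q s (((D * s) ^ e T * ∏ i ∈ T, x i) *
      ((D * s) ^ e (rep (G T)) * ∏ i ∈ rep (G T), x i)) (ρ' ^ 2) := by
    intro T
    refine ⟨((∏ p ∈ G T, p : ℕ) : ℚ) * (ρ T * ρ (rep (G T))), ?_⟩
    have h1 := Nm.mul hs (hNm T) (hNm (rep (G T)))
    rw [hrep T] at h1
    have e1 : ((∏ p ∈ G T, p : ℕ) : ℚ) * ρ T ^ 2 * (((∏ p ∈ G T, p : ℕ) : ℚ) *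
        ρ (rep (G T)) ^ 2) = (((∏ p ∈ G T, p : ℕ) : ℚ) * (ρ T * ρ (rep (G T)))) ^ 2 := by ring
    rw [e1] at h1
    exact h1
  choose F hF hFsq using fun T => hM2 _ (hprod T) (hprodN T)
  refine card_bound (fun T => (G T, F T)) ?_ hG hF
  intro T T' hTT
  have hGG : G T = G T' := congrArg Prod.fst hTT
  have hFF : F T = F T' := congrArg Prod.snd hTT
  by_contra hne
  have hdiff : (symmDiff T T').Nonempty := by
    rw [Finset.nonempty_iff_ne_empty]
    intro h0
    apply hne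
    exact symmDiff_eq_bot.1 h0
  obtain ⟨z, hz⟩ := hFsq T
  obtain ⟨z', hz'⟩ := hFsq T'
  rw [← hGG, ← hFF] at hz'
  set P : K := ((∏ p ∈ F T, p : ℕ) : K) with hP
  set Y : K := (D * s) ^ e (rep (G T)) * ∏ i ∈ rep (G T), x i with hY
  have hP0 : P ≠ 0 := by
    rw [hP]
    have : (∏ p ∈ F T, p : ℕ) ≠ 0 := by
      rw [Finset.prod_ne_zero_iff]
      intro p hp
      have h1 := (mem_GG.1 (hF T)).1 hp
      unfold SP at h1
      exact (Nat.prime_of_mem_primeFactors (Finset.mem_filter.1 h1).1).ne_zero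
    exact_mod_cast this
  have hY0 : Y ≠ 0 := (hgood (rep (G T))).sx.ne
  set a : K := ∏ i ∈ T, x i with ha
  set a' : K := ∏ i ∈ T', x i with ha'
  have ha0 : a ≠ 0 := (hSX T).ne
  have ha0' : a' ≠ 0 := (hSX T').ne
  -- the product of the two classes is a square
  have hsq1 : IsSquare ((D * s) ^ (e T + e T') * (a * a')) := by
    refine ⟨z * z' / (Y * P), ?_⟩
    have h1 : z * z' / (Y * P) * (z * z' / (Y * P)) = (z * z) * (z' * z') / (Y * P) ^ 2 := by
      field_simp
    rw [h1, ← hz, ← hz', pow_add]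
    field_simp
  have hsplit : a * a' = (∏ i ∈ symmDiff T T', x i) * (∏ i ∈ T ∩ T', x i) ^ 2 := by
    have h1 : a = (∏ i ∈ T \ T', x i) * ∏ i ∈ T ∩ T', x i := by
      rw [ha, ← Finset.prod_union (Finset.disjoint_sdiff_inter T T'), Finset.sdiff_union_inter]
    have h2 : a' = (∏ i ∈ T' \ T, x i) * ∏ i ∈ T ∩ T', x i := by
      rw [ha', Finset.inter_comm, ← Finset.prod_union (Finset.disjoint_sdiff_inter T' T),
        Finset.sdiff_union_inter]
    have h3 : ∏ i ∈ symmDiff T T', x i = (∏ i ∈ T \ T', x i) * ∏ i ∈ T' \ T, x i := by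
      have h4 : symmDiff T T' = (T \ T') ∪ (T' \ T) := rfl
      rw [h4, Finset.prod_union disjoint_sdiff_sdiff]
    rw [h1, h2, h3]
    ring
  have hI0 : ∏ i ∈ T ∩ T', x i ≠ 0 := (hSX _).ne
  obtain ⟨w, hw⟩ := hsq1
  rw [hsplit] at hw
  have heven : IsSquare ((D * s) ^ (e T + e T') * ∏ i ∈ symmDiff T T', x i) := by
    refine ⟨w / ∏ i ∈ T ∩ T', x i, ?_⟩
    have h1 : w / (∏ i ∈ T ∩ T', x i) * (w / ∏ i ∈ T ∩ T', x i) =
        w * w / (∏ i ∈ T ∩ T', x i) ^ 2 := by field_simp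
    rw [h1, ← hw]
    field_simp
  obtain ⟨hn1, hn2⟩ := hT _ hdiff
  have he1 := he T
  have he2 := he T'
  have hcases : e T + e T' = 0 ∨ e T + e T' = 1 ∨ e T + e T' = 2 := by omega
  rcases hcases with h | h | h
  · rw [h, pow_zero, one_mul] at heven
    exact hn1 heven
  · rw [h, pow_one] at heven
    exact hn2 heven
  · rw [h] at heven
    obtain ⟨w', hw'⟩ := heven
    apply hn1
    refine ⟨w' / (D * s), ?_⟩
    have h1 : w' / (D * s) * (w' / (D * s)) = w' * w' / (D * s) ^ 2 := by field_simp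
    rw [h1, ← hw']
    field_simp

end Pool.Agent.Q223.BKC
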