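import Pool.Agent.Q274.BKC.Stm2

/-!
# Job BND of project BKC, part 1: Galois theory of the classes modulo squares
-/

set_option autoImplicit false
set_option linter.unusedVariables false
set_option linter.unusedSectionVars false

namespace Pool.Agent.Q223.BKC

open NumberField IsDedekindDomain Pool.Agent.Q274.BKC
open scoped Classical Pointwise

section fx
variable {K : Type} [Field K]

theorem Fx_mul {x y : K} {H : Set (GK K)} (hx : Fx x H) (hy : Fx y H) : Fx (x * y) H := by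
  intro z hz σ hσ
  obtain ⟨u, hu⟩ := IsAlgClosed.exists_pow_nat_eq (algebraMap K (AlgebraicClosure K) x)
    (n := 2) two_pos
  by_cases hx0 : x = 0
  · rw [hx0, zero_mul, map_zero] at hz
    have : z = 0 := pow_eq_zero_iff two_ne_zero |>.1 hz
    rw [this, map_zero]
  · have hu0 : u ≠ 0 := by
      rintro rfl
      rw [zero_pow two_ne_zero] at hu
      exact hx0 ((map_eq_zero _).1 hu.symm)
    have hw : (z / u) ^ 2 = algebraMap K (AlgebraicClosure K) y := by
      rw [div_pow, hz, hu, map_mul]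
      have : algebraMap K (AlgebraicClosure K) x ≠ 0 := (map_ne_zero _).2 hx0
      field_simp
    have h1 := hx u hu σ hσ
    have h2 := hy (z / u) hw σ hσ
    rw [map_div₀, h1] at h2
    field_simp at h2
    exact h2

theorem Fx_sq (c : K) (H : Set (GK K)) : Fx (c ^ 2) H := by
  intro z hz σ hσ
  rw [map_pow] at hz
  rcases sq_eq_sq_iff_eq_or_eq_neg.1 hz with h | h
  · rw [h]; exact σ.commutes c
  · rw [h, map_neg]
    congr 1
    exact σ.commutes c

theorem Fx_mul_sq {x c : K} {H : Set (GK K)} (hx : Fx x H) : Fx (x * c ^ 2) H :=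
  Fx_mul hx (Fx_sq c H)

theorem Fx_of_mul_sq {x c : K} {H : Set (GK K)} (hc : c ≠ 0) (hx : Fx (x * c ^ 2) H) : Fx x H := by
  have h := Fx_mul hx (Fx_sq c⁻¹ H)
  have e : x * c ^ 2 * c⁻¹ ^ 2 = x := by field_simp
  rwa [e] at h

end fx

section gal
variable {K : Type} [Field K] [NumberField K]

theorem coe_smul (σ : GK K) (x : OB K) :
    ((σ • x : OB K) : AlgebraicClosure K) = σ (x : AlgebraicClosure K) := rfl

theorem sm_comm : SMulCommClass (GK K) (𝓞 K) (OB K) := by
  refine ⟨fun g a b => ?_⟩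
  apply RingOfIntegers.ext
  rw [coe_smul, Algebra.smul_def, Algebra.smul_def]
  change g ((algebraMap (𝓞 K) (OB K) a : OB K) * (b : AlgebraicClosure K)) =
    (algebraMap (𝓞 K) (OB K) a : OB K) * g b
  rw [map_mul]
  congr 1
  exact g.commutes (a : K)

theorem is_inv : Algebra.IsInvariant (𝓞 K) (OB K) (GK K) := by
  refine ⟨fun b hb => ?_⟩
  have h1 : (b : AlgebraicClosure K) ∈ (⊥ : IntermediateField K (AlgebraicClosure K)) := by
    rw [InfiniteGalois.mem_bot_iff_fixed]
    intro g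
    exact congrArg (fun z : (OB K) => (z : AlgebraicClosure K)) (hb g)
  obtain ⟨k, hk⟩ := IntermediateField.mem_bot.1 h1
  have h2 : IsIntegral ℤ k := by
    have h3 : IsIntegral ℤ (algebraMap K (AlgebraicClosure K) k) := by
      rw [hk]
      exact b.2
    exact (isIntegral_algebraMap_iff (algebraMap K (AlgebraicClosure K)).injective).1 h3
  refine ⟨⟨k, h2⟩, ?_⟩
  apply RingOfIntegers.ext
  exact hk

/-- the Galois group is transitive on the primes above a prime -/
theorem conj_primes (Q Q' : Ideal (OB K)) (hQ : Q.IsPrime) (hQ' : Q'.IsPrime)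
    (h : Q.comap (algebraMap (𝓞 K) (OB K)) = Q'.comap (algebraMap (𝓞 K) (OB K))) :
    ∃ g : GK K, ∀ x : OB K, g • x ∈ Q' ↔ x ∈ Q := by
  have : SMulCommClass (GK K) (𝓞 K) (OB K) := sm_comm
  have : Algebra.IsInvariant (𝓞 K) (OB K) (GK K) := is_inv
  let _ : TopologicalSpace (OB K) := ⊥
  have : DiscreteTopology (OB K) := ⟨rfl⟩
  have : ContinuousSMul (GK K) (OB K) := by
    rw [continuousSMul_iff_stabilizer_isOpen]
    intro x
    have h1 := stabilizer_isOpen_of_isIntegral (K := K) (x : AlgebraicClosure K)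
    have h2 : (MulAction.stabilizer (GK K) x : Set (GK K)) =
        (MulAction.stabilizer (GK K) (x : AlgebraicClosure K) : Set (GK K)) := by
      ext g
      rw [SetLike.mem_coe, SetLike.mem_coe, MulAction.mem_stabilizer_iff,
        MulAction.mem_stabilizer_iff]
      constructor
      · intro h
        exact congrArg (fun z : (OB K) => (z : AlgebraicClosure K)) h
      · intro h
        exact RingOfIntegers.ext h
    rw [h2]
    exact h1
  obtain ⟨g, hg⟩ := Algebra.IsInvariant.exists_smul_of_under_eq_of_profinite (A := 𝓞 K)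
    (G := GK K) Q Q' h
  refine ⟨g, fun x => ?_⟩
  rw [hg, Ideal.mem_pointwise_smul_iff_inv_smul_mem, inv_smul_smul]

/-- the property `Fx x (Dec Q)` depends only on the prime of `K` below `Q` -/
theorem Fx_conj {x : K} {Q Q' : Ideal (OB K)} {g : GK K} (hg : ∀ x : OB K, g • x ∈ Q' ↔ x ∈ Q)
    (h : Fx x (Dec Q)) : Fx x (Dec Q') := by
  intro y hy σ hσ
  have h1 : g⁻¹ * σ * g ∈ Dec Q := by
    intro z
    have e1 := hg ((g⁻¹ * σ * g) • z)
    have e2 : g • (g⁻¹ * σ * g) • z = σ • (g • z) := by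
      rw [smul_smul, smul_smul]
      congr 1
      group
    rw [e2] at e1
    rw [← e1, hσ (g • z), hg z]
  have h2 : (g⁻¹ y) ^ 2 = algebraMap K (AlgebraicClosure K) x := by
    rw [← map_pow, hy]
    exact (g⁻¹).commutes x
  have h3 := h (g⁻¹ y) h2 (g⁻¹ * σ * g) h1
  have h4 : (g⁻¹ * σ * g) (g⁻¹ y) = g⁻¹ (σ y) := by
    change g⁻¹ (σ (g (g⁻¹ y))) = g⁻¹ (σ y)
    congr 2
    change (g * g⁻¹) y = y
    rw [mul_inv_cancel]
    rfl
  rw [h4] at h3
  exact (g⁻¹).injective h3

end gal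

section ram
variable {K : Type} [Field K] [NumberField K] {q : ℕ} {s : K}

theorem s_integral (hs : s ^ 2 = -(q : K)) : IsIntegral ℤ s := by
  refine ⟨Polynomial.X ^ 2 + Polynomial.C (q : ℤ), ?_, ?_⟩
  · exact Polynomial.monic_X_pow_add_C _ two_ne_zero
  · rw [Polynomial.eval₂_add, Polynomial.eval₂_pow, Polynomial.eval₂_X, Polynomial.eval₂_C, hs]
    simp

/-- there is only one prime of `K` above `q` -/
theorem unique_above (hq : q.Prime) (hs : s ^ 2 = -(q : K)) (hK : Module.finrank ℚ K = 2)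
    (P P' : Ideal (𝓞 K)) (hP : P.IsPrime) (hP' : P'.IsPrime) (h : (q : 𝓞 K) ∈ P)
    (h' : (q : 𝓞 K) ∈ P') : P = P' := by
  let S : 𝓞 K := ⟨s, s_integral hs⟩
  have hS : S ^ 2 = -(q : 𝓞 K) := by
    apply RingOfIntegers.ext
    change s ^ 2 = ((-(q : 𝓞 K) : 𝓞 K) : K)
    rw [hs]
    simp
  have hn : Ideal.absNorm (Ideal.span {S}) = q := by
    have h1 : Ideal.absNorm (Ideal.span {S ^ 2}) = q ^ 2 := by
      have e : Ideal.span {S ^ 2} = Ideal.span {((q : ℤ) : 𝓞 K)} := by
        rw [hS, Ideal.span_singleton_neg]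
        simp
      rw [e, Ideal.absNorm_span_singleton]
      have e2 : ((q : ℤ) : 𝓞 K) = algebraMap ℤ (𝓞 K) (q : ℤ) := by simp
      rw [e2, Algebra.norm_algebraMap, RingOfIntegers.rank, hK, Int.natAbs_pow, Int.natAbs_natCast]
    rw [← Ideal.span_singleton_pow, map_pow] at h1
    exact Nat.pow_left_injective two_ne_zero h1
  have hSp : (Ideal.span {S}).IsPrime := Ideal.isPrime_of_irreducible_absNorm (by rw [hn]; exact hq)
  have hS0 : Ideal.span {S} ≠ ⊥ := by
    rw [Ne, Ideal.span_singleton_eq_bot]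
    intro h0
    rw [h0, zero_pow two_ne_zero] at hS
    have : (q : 𝓞 K) = 0 := by
      rw [← neg_eq_zero, ← hS]
    exact hq.ne_zero (by exact_mod_cast this)
  have hSm : (Ideal.span {S}).IsMaximal := hSp.isMaximal hS0
  have key : ∀ R : Ideal (𝓞 K), R.IsPrime → (q : 𝓞 K) ∈ R → R = Ideal.span {S} := by
    intro R hR hqR
    have h1 : S ^ 2 ∈ R := by
      rw [hS]; exact R.neg_mem hqR
    have h2 : S ∈ R := hR.mem_of_pow_mem 2 h1
    have h3 : Ideal.span {S} ≤ R := (Ideal.span_singleton_le_iff_mem R).2 h2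
    exact (hSm.eq_of_le hR.ne_top h3).symm
  rw [key P hP h, key P' hP' h']

/-- all primes above `q` are conjugate -/
theorem Fx_all {x : K} (hq : q.Prime) (hs : s ^ 2 = -(q : K)) (hK : Module.finrank ℚ K = 2)
    {Q Q' : Ideal (OB K)} (hQ : Q.IsMaximal) (hQ' : Q'.IsMaximal) (h : (q : OB K) ∈ Q)
    (h' : (q : OB K) ∈ Q') (hx : Fx x (Dec Q)) : Fx x (Dec Q') := by
  have h1 : Q.comap (algebraMap (𝓞 K) (OB K)) = Q'.comap (algebraMap (𝓞 K) (OB K)) := by
    have := hQ.isPrime
    have := hQ'.isPrime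
    refine unique_above hq hs hK _ _ (Ideal.IsPrime.comap _) (Ideal.IsPrime.comap _) ?_ ?_
    · rw [Ideal.mem_comap, map_natCast]; exact h
    · rw [Ideal.mem_comap, map_natCast]; exact h'
  obtain ⟨g, hg⟩ := conj_primes Q Q' hQ.isPrime hQ'.isPrime h1
  exact Fx_conj hg hx

end ram

section sx
variable {K : Type} [Field K] [NumberField K] {q D : ℕ} {s : K}

theorem SX_mul {x y : K} (hD : (D : K) * s ≠ 0) (hx : SX q D s x) (hy : SX q D s y) :
    SX q D s (x * y) := by
  have comb : ∀ H : Set (GK K), (Fx x H ∨ Fx (x * (D * s)) H) → (Fx y H ∨ Fx (y * (D * s)) H) →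
      (Fx (x * y) H ∨ Fx (x * y * (D * s)) H) := by
    intro H h1 h2
    rcases h1 with h1 | h1 <;> rcases h2 with h2 | h2
    · exact Or.inl (Fx_mul h1 h2)
    · right
      have := Fx_mul h1 h2
      rwa [← mul_assoc] at this
    · right
      have := Fx_mul h1 h2
      have e : x * (D * s) * y = x * y * (D * s) := by ring
      rwa [e] at this
    · left
      have := Fx_mul h1 h2
      have e : x * (D * s) * (y * (D * s)) = x * y * (D * s) ^ 2 := by ring
      rw [e] at this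
      exact Fx_of_mul_sq hD this
  refine ⟨mul_ne_zero hx.ne hy.ne, fun v hv => ?_, fun l Q h1 h2 h3 h4 => ?_, fun Q h1 h2 => ?_⟩
  · obtain ⟨a, ha, ha1⟩ := hx.even v hv
    obtain ⟨b, hb, hb1⟩ := hy.even v hv
    refine ⟨a * b, mul_ne_zero ha hb, ?_⟩
    have e : x * y * (a * b) ^ 2 = (x * a ^ 2) * (y * b ^ 2) := by ring
    rw [e, map_mul, ha1, hb1, one_mul]
  · exact comb _ (hx.loc l Q h1 h2 h3 h4) (hy.loc l Q h1 h2 h3 h4)
  · exact comb _ (hx.two Q h1 h2) (hy.two Q h1 h2)

theorem SX_sq {c : K} (hc : c ≠ 0) : SX q D s (c ^ 2) := by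
  refine ⟨pow_ne_zero 2 hc, fun v hv => ⟨c⁻¹, inv_ne_zero hc, ?_⟩, fun l Q h1 h2 h3 h4 => Or.inl ?_,
    fun Q h1 h2 => Or.inl ?_⟩
  · have e : c ^ 2 * c⁻¹ ^ 2 = 1 := by field_simp
    rw [e, map_one]
  · exact Fx_sq c _
  · exact Fx_sq c _

theorem SX_Ds (hs : s ^ 2 = -(q : K)) (hD : (D : K) * s ≠ 0) : SX q D s (D * s) := by
  have h0 : Fx ((D : K) * s * (D * s)) = Fx (((D : K) * s) ^ 2) := by rw [sq]
  refine ⟨hD, fun v hv => ⟨1, one_ne_zero, ?_⟩, fun l Q h1 h2 h3 h4 => Or.inr ?_,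
    fun Q h1 h2 => Or.inr ?_⟩
  · have h1 : ((D : K) * s) ^ 2 = -(((D ^ 2 * q : ℕ) : 𝓞 K) : K) := by
      rw [mul_pow, hs]
      simp
    have h2 : ((D ^ 2 * q : ℕ) : 𝓞 K) ∉ v.asIdeal := by
      intro h
      apply hv
      rw [Nat.cast_mul, Nat.cast_pow] at h
      rcases v.isPrime.mem_or_mem h with h | h
      · have h3 := v.isPrime.mem_of_pow_mem 2 h
        rw [Nat.cast_mul]
        exact v.asIdeal.mul_mem_left _ h3
      · rw [Nat.cast_mul, Nat.cast_mul]
        exact v.asIdeal.mul_mem_right _ (v.asIdeal.mul_mem_left _ h)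
    have h3 : v.valuation K (((D ^ 2 * q : ℕ) : 𝓞 K) : K) = 1 := by
      have h4 := v.valuation_le_one (K := K) ((D ^ 2 * q : ℕ) : 𝓞 K)
      refine le_antisymm h4 (not_lt.1 fun h5 => h2 ?_)
      exact (v.valuation_lt_one_iff_mem (K := K) _).1 h5
    have h6 : v.valuation K ((D : K) * s) ^ 2 = 1 := by
      rw [← map_pow, h1, Valuation.map_neg, h3]
    rw [one_pow, mul_one]
    rcases lt_trichotomy (v.valuation K ((D : K) * s)) 1 with h7 | h7 | h7
    · exact absurd h6 (pow_lt_one₀ zero_le h7 two_ne_zero).ne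
    · exact h7
    · exact absurd h6 (one_lt_pow₀ h7 two_ne_zero).ne'
  · rw [h0]; exact Fx_sq _ _
  · rw [h0]; exact Fx_sq _ _

theorem SX_one : SX q D s (1 : K) := by
  have := SX_sq (q := q) (D := D) (s := s) (c := (1 : K)) one_ne_zero
  rwa [one_pow] at this

theorem SX_prod {r : ℕ} {x : Fin r → K} (hD : (D : K) * s ≠ 0) (hx : ∀ i, SX q D s (x i))
    (T : Finset (Fin r)) : SX q D s (∏ i ∈ T, x i) := by
  induction T using Finset.induction_on with
  | empty => rw [Finset.prod_empty]; exact SX_one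
  | insert a T ha ih =>
    rw [Finset.prod_insert ha]
    exact SX_mul hD (hx a) ih

end sx

end Pool.Agent.Q223.BKC
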